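import Pool.Agent.H724.EZ.Sweep5
import Pool.Agent.H724.EZ.PDer
import Pool.Agent.H724.EZ.PGroup
import Pool.Agent.H724.EZ.PTimed
import Pool.Agent.H724.EZ.PSeg
import Pool.Agent.H724.EZ.PAlign
import Pool.Agent.H724.EZ.PChn
import Pool.Agent.H724.EZ.PRel
import Pool.Agent.H724.EZ.PEqual
import Pool.Agent.H724.EZ.PCount
import Pool.Agent.H724.EZ.PUncov
import Pool.Agent.H724.EZ.PRefine
import Pool.Agent.H724.EZ.REsc
import Pool.Agent.H724.EZ.RFb
import Pool.Agent.H724.EZ.TPath
import Pool.Agent.H724.EZ.TWord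
import Pool.Agent.H724.EZ.TFinal
import Pool.Agent.H724.EZ.TCor
import Pool.Agent.H724.EZ.TCent
import Pool.Agent.H724.EZ.RCor
import Pool.Agent.H724.EZ.QCor

set_option autoImplicit false

namespace Pool.Agent.Results.MP_5ec15a_lc.CommensuratedSubgroups

open Pool.Agent.H724.EZ

/-- A group with ET0L word problem. (1) Let `H`, `K` be finitely generated subgroups, `K` infinite,
such that `x K x⁻¹ ∩ K` has finite index in `K` for all `x ∈ H`, and such that `H ∩ N ≤ K` for the
subgroup `N` generated by the conjugates of `K` by elements of `H`; then `H ∩ K` has finite index in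
`H`. (2) So an infinite finitely generated subgroup `K` which is normal in a finitely generated
subgroup `M` has finite index in `M`. (3) If `y` has infinite order and its centraliser has finite
index in `G`, then `⟨y⟩` has finite index in `G`, so `G` is virtually infinite cyclic. (4) No subgroup
is a direct product of two infinite finitely generated groups. -/
theorem result (G : Type) [Group G] (X : Finset G) (hX : Subgroup.closure (X : Set G) = ⊤)
    (h : ET0LWordProblem G X) :
    (∀ (H K : Subgroup G), H.FG → K.FG → (K : Set G).Infinite →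
      (∀ x ∈ H, (K.map (MulAut.conj x).toMonoidHom).relIndex K ≠ 0) →
      H ⊓ Subgroup.closure {g | ∃ x ∈ H, ∃ z ∈ K, g = x * z * x⁻¹} ≤ K → K.relIndex H ≠ 0) ∧
    (∀ (M K : Subgroup G), M.FG → K.FG → K ≤ M → (K : Set G).Infinite →
      (∀ x ∈ M, ∀ z ∈ K, x * z * x⁻¹ ∈ K) → K.relIndex M ≠ 0) ∧
    (∀ y : G, ¬ IsOfFinOrder y → (Subgroup.centralizer {y}).FiniteIndex →
      (Subgroup.zpowers y).FiniteIndex) ∧
    (∀ (H K : Type) [Group H] [Group K] [Group.FG H] [Group.FG K] [Infinite H] [Infinite K],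
      ¬ ∃ f : H × K →* G, Function.Injective f) := by
  have hDA : S_DERAPP := @Pool.Agent.H103.EZ_DER.derapp
  have hDF : S_DERFLAT := @Pool.Agent.H103.EZ_DER.derflat
  have hG : S_GROUP := @Pool.Agent.H143.EZGroup.group
  have hT : S_TIMED := @Pool.Agent.H570.EZTimed.timed
  have hSB : S_SEGBASIC := @Pool.Agent.H412.EZ.segbasic
  have hAl : S_ALIGN := @Pool.Agent.H92.EZAlign.align
  have hKF : S_KEYFIN := @Pool.Agent.H92.EZAlign.keyfin
  have hCP : S_CHNPROD := @Pool.Agent.H646.EZCHNPROD.chnprod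
  have hR : S_REL := @Pool.Agent.H69.EZrel.rel
  have hE : S_EQUAL := @Pool.Agent.H401.EZ.equal
  have hC : S_COUNT := @Pool.Agent.H784.EZC.count
  have hU : S_UNCOV := @Pool.Agent.H734.EZ.uncov
  have hRef : S_REFINE := @Pool.Agent.H231.EZREFINE.refine'
  have hEsc : S_ESC := @Pool.Agent.H180.EZ.esc
  have hFb : S_FB := @Pool.Agent.H340.EZFB.fb
  have hMP : S_MPATH5 := @Pool.Agent.H668.EZ5.mpath5
  have hW : S_WORD5 := @Pool.Agent.H528.EZ.word5
  have hS : S_SWEEP5 := @sweep5 @hDA @hDF @hG @hT @hSB @hAl @hKF @hCP @hR @hE @hC @hU @hRef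
    @hEsc @hFb @hMP @hW
  have h1 := Pool.Agent.H976.EZFinal5.final5 @hS G X hX h
  have h2 := @Pool.Agent.H277.EZCOR5.cor5 G _ h1
  have h3 := @Pool.Agent.H977.EZCOR4.cor4 G _ h2
  exact ⟨h1, h2, cor6 G X hX h2, @Pool.Agent.H539.EZ2.cor2 G _ h3⟩

end Pool.Agent.Results.MP_5ec15a_lc.CommensuratedSubgroups
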